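import Pool.Agent.V11196.MStr.Defs

/-!
# No `ℳ`-structure of type `(Ã₁, m)` for `m ≥ 2`

The distinguished element `1` of `L ≅ Hom(V, W)²` is a pair of `m × m` matrices, i.e. a representation
of the quiver `Ã₁` of dimension vector `(m, m)`, and `A ∩ B = ℂ 1` says that its endomorphism algebra
is `ℂ`.  For `m ≥ 2` there is no such representation.
-/

namespace Pool.Agent.Results.MP_b9cab9_al.NoStructureAOne

open Pool.Agent.V11196.MStr Matrix

variable {m : ℕ}

/-- A singular member of the pencil gives a pair of intertwining matrices. -/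
lemma exists_pair_of_singular (hm : 2 ≤ m) (u w : Matrix (Fin m) (Fin m) ℂ) (hu : u.det = 0) :
    ∃ a b : Matrix (Fin m) (Fin m) ℂ, b * u = u * a ∧ b * w = w * a ∧
      ¬ ∃ c : ℂ, a = c • 1 ∧ b = c • 1 := by
  obtain ⟨v, hv0, hv⟩ := Matrix.exists_mulVec_eq_zero_iff.2 hu
  obtain ⟨p, hp0, hp⟩ := Matrix.exists_vecMul_eq_zero_iff.2 hu
  have hrank : ∀ (x y : Fin m → ℂ) (c : ℂ), vecMulVec x y = c • (1 : Matrix (Fin m) (Fin m) ℂ) →
      c = 0 := by
    intro x y c h
    have h00 := congrFun (congrFun h ⟨0, by omega⟩) ⟨0, by omega⟩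
    have h01 := congrFun (congrFun h ⟨0, by omega⟩) ⟨1, by omega⟩
    have h10 := congrFun (congrFun h ⟨1, by omega⟩) ⟨0, by omega⟩
    have h11 := congrFun (congrFun h ⟨1, by omega⟩) ⟨1, by omega⟩
    simp [vecMulVec_apply, Matrix.smul_apply] at h00 h01 h10 h11
    have : c * c = 0 := by
      calc c * c = (x ⟨0, by omega⟩ * y ⟨0, by omega⟩) * (x ⟨1, by omega⟩ * y ⟨1, by omega⟩) := by
            rw [h00, h11]
        _ = (x ⟨0, by omega⟩ * y ⟨1, by omega⟩) * (x ⟨1, by omega⟩ * y ⟨0, by omega⟩) := by ring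
        _ = 0 := by
            rcases h01 with h | h <;> simp [h]
    exact mul_self_eq_zero.1 this
  have hnz : ∀ x y : Fin m → ℂ, x ≠ 0 → y ≠ 0 → vecMulVec x y ≠ 0 := by
    intro x y hx hy h
    obtain ⟨i, hi⟩ := Function.ne_iff.1 hx
    obtain ⟨j, hj⟩ := Function.ne_iff.1 hy
    have := congrFun (congrFun h i) j
    rw [vecMulVec_apply] at this
    exact mul_ne_zero hi hj this
  by_cases hpw : p ᵥ* w = 0
  · -- common left null vector
    refine ⟨0, vecMulVec v p, ?_, ?_, ?_⟩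
    · rw [vecMulVec_mul, hp, mul_zero, vecMulVec_zero]
    · rw [vecMulVec_mul, hpw, mul_zero, vecMulVec_zero]
    · rintro ⟨c, h1, h2⟩
      have hc := hrank _ _ _ h2
      rw [hc, zero_smul] at h2
      exact hnz _ _ hv0 hp0 h2
  · refine ⟨vecMulVec v (p ᵥ* w), vecMulVec (w *ᵥ v) p, ?_, ?_, ?_⟩
    · rw [vecMulVec_mul, hp, mul_vecMulVec, hv, vecMulVec_zero, zero_vecMulVec]
    · rw [vecMulVec_mul, mul_vecMulVec]
    · rintro ⟨c, h1, h2⟩
      have hc := hrank _ _ _ h1
      rw [hc, zero_smul] at h1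
      exact hnz _ _ hv0 hpw h1

lemma exists_pair (hm : 2 ≤ m) (x y : Matrix (Fin m) (Fin m) ℂ) :
    ∃ a b : Matrix (Fin m) (Fin m) ℂ, b * x = x * a ∧ b * y = y * a ∧
      ¬ ∃ c : ℂ, a = c • 1 ∧ b = c • 1 := by
  by_cases hy : y.det = 0
  · obtain ⟨a, b, h1, h2, h3⟩ := exists_pair_of_singular hm y x hy
    exact ⟨a, b, h2, h1, h3⟩
  · have hne : Nonempty (Fin m) := ⟨⟨0, by omega⟩⟩
    obtain ⟨c, hc⟩ := IsAlgClosed.exists_root (y⁻¹ * x).charpoly
      (by rw [Matrix.charpoly_degree_eq_dim]; simp; omega)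
    rw [Polynomial.IsRoot.def, Matrix.eval_charpoly] at hc
    have hdet : (x - c • y).det = 0 := by
      have h1 : x - c • y = -(y * (scalar (Fin m) c - y⁻¹ * x)) := by
        rw [mul_sub, ← mul_assoc, mul_nonsing_inv _ (isUnit_iff_ne_zero.2 hy), one_mul, neg_sub]
        congr 1
        rw [scalar_apply, ← smul_one_eq_diagonal, mul_smul_comm, mul_one]
      rw [h1, det_neg, det_mul, hc, mul_zero, mul_zero]
    obtain ⟨a, b, h1, h2, h3⟩ := exists_pair_of_singular hm (x - c • y) y hdet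
    refine ⟨a, b, ?_, h2, h3⟩
    have h4 : x = (x - c • y) + c • y := by abel
    rw [h4, mul_add, add_mul, h1, mul_smul_comm, smul_mul_assoc, h2]

/-- There is no weak `ℳ`-structure (hence no `ℳ`-structure) corresponding to `(Ã₁, m)`, `m ≥ 2`: here
`Ã₁` has one vertex of each colour, joined by two edges, and its minimal imaginary root is `(1; 1)`. -/
theorem result (m : ℕ) (hm : 2 ≤ m) (A B L : Type) [Ring A] [Algebra ℂ A] [Ring B] [Algebra ℂ B]
    [AddCommGroup L] [Module ℂ L] (S : WeakMStructure A B L) :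
    ¬ S.HasType (fun (_ _ : Fin 1) => 2) (fun _ => m) (fun _ => m) := by
  rintro ⟨φ, ψ, e, hB, hA⟩
  obtain ⟨a, b, h1, h2, h3⟩ := exists_pair hm (e (S.emA 1) 0 0 0) (e (S.emA 1) 0 0 1)
  let a' : A := φ.symm fun _ => a
  let b' : B := ψ.symm fun _ => b
  have ea : S.right (S.emA 1) a' = S.emA a' := by
    rw [S.isRightAction.restrict, one_mul]
  have eb : S.left b' (S.emA 1) = S.emB b' := by
    rw [S.one_eq, S.isLeftAction.restrict, mul_one]
  have hab : S.emA a' = S.emB b' := by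
    rw [← ea, ← eb]
    apply e.injective
    ext i j k : 3
    have hi : i = 0 := Subsingleton.elim _ _
    have hj : j = 0 := Subsingleton.elim _ _
    subst hi hj
    rw [hB, hA]
    have e1 : ψ b' 0 = b := by simp [b']
    have e2 : φ a' 0 = a := by simp [a']
    rw [e1, e2]
    have hk : k = 0 ∨ k = 1 := by
      have : ∀ k : Fin 2, k = 0 ∨ k = 1 := by decide
      exact this k
    rcases hk with rfl | rfl
    · exact h1.symm
    · exact h2.symm
  obtain ⟨c, hc⟩ := S.inter a' b' hab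
  have ha : a' = c • (1 : A) := S.emA_injective (by rw [hc, map_smul])
  have hb : b' = c • (1 : B) := S.emB_injective (by rw [← hab, hc, map_smul, S.one_eq])
  apply h3
  refine ⟨c, ?_, ?_⟩
  · have h5 := congrFun (congrArg φ ha) 0
    rw [map_smul, map_one] at h5
    simpa [a'] using h5
  · have h5 := congrFun (congrArg ψ hb) 0
    rw [map_smul, map_one] at h5
    simpa [b'] using h5

end Pool.Agent.Results.MP_b9cab9_al.NoStructureAOne
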